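import Pool.Agent.helper84.NR.Spec

/-! Row nrv:NVQ (MP_133bfc_co). -/

set_option autoImplicit false

namespace Pool.Agent.helper84.NR

open scoped Classical
open Finset

theorem NVQ_face (hEDG : EDG_stmt) {V F : Type} [Fintype V] [Fintype F] (M : PMap V F) (x : V) (B A : F)
    (hx : ¬ OnV M.toCyc B x) (hA : A ∈ NN M x B) :
    ((shV M x B).filter (fun v => OnV M.toCyc A v)).card = 1 + ((shE M x B).filter (fun e => OnE M.toCyc A e)).card := by
  have hA' := (mem_filter.1 hA).2
  obtain ⟨hAx, v0, hAv, hBv⟩ := hA'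
  have hAB : A ≠ B := by
    rintro rfl
    exact hx hAx
  by_cases h : ∃ w, w ≠ v0 ∧ OnV M.toCyc A w ∧ OnV M.toCyc B w
  · obtain ⟨w, hw, hAw, hBw⟩ := h
    obtain ⟨e1, e2, e3⟩ := M.poly A B hAB v0 w (Ne.symm hw) hAv hAw hBv hBw
    have h1 : (shV M x B).filter (fun v => OnV M.toCyc A v) = {v0, w} := by
      ext u
      simp only [mem_filter, mem_insert, mem_singleton, shV, mem_univ, true_and]
      constructor
      · rintro ⟨⟨hu, -⟩, hu'⟩
        exact e3 u hu' hu
      · rintro (rfl | rfl)
        · exact ⟨⟨hBv, A, hAx, hAv⟩, hAv⟩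
        · exact ⟨⟨hBw, A, hAx, hAw⟩, hAw⟩
    have h2 : (shE M x B).filter (fun e => OnE M.toCyc A e) = {s(v0, w)} := by
      ext e
      simp only [mem_filter, mem_singleton, shE, mem_univ, true_and]
      constructor
      · rintro ⟨⟨hB, -⟩, hA2⟩
        induction e using Sym2.ind with
        | _ p q =>
          obtain ⟨p1, q1, hpq⟩ := (hEDG V F M).1 B p q hB
          obtain ⟨p2, q2, -⟩ := (hEDG V F M).1 A p q hA2
          rcases e3 p p2 p1 with hp | hp
          · rcases e3 q q2 q1 with hq | hq
            · exact absurd (hp.trans hq.symm) hpq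
            · rw [hp, hq]
          · rcases e3 q q2 q1 with hq | hq
            · rw [hp, hq]; exact Sym2.eq_swap
            · exact absurd (hp.trans hq.symm) hpq
      · rintro rfl
        exact ⟨⟨e2, A, hAx, e1⟩, e1⟩
    rw [h1, h2, card_pair (Ne.symm hw), card_singleton]
  · push Not at h
    have h1 : (shV M x B).filter (fun v => OnV M.toCyc A v) = {v0} := by
      ext u
      simp only [mem_filter, mem_singleton, shV, mem_univ, true_and]
      constructor
      · rintro ⟨⟨hu, -⟩, hu'⟩
        by_contra hne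
        exact h u hne hu' hu
      · rintro rfl
        exact ⟨⟨hBv, A, hAx, hAv⟩, hAv⟩
    have h2 : (shE M x B).filter (fun e => OnE M.toCyc A e) = ∅ := by
      rw [filter_eq_empty_iff]
      intro e he hA2
      have hB := (mem_filter.1 he).2.1
      induction e using Sym2.ind with
      | _ p q =>
        obtain ⟨p1, q1, hpq⟩ := (hEDG V F M).1 B p q hB
        obtain ⟨p2, q2, -⟩ := (hEDG V F M).1 A p q hA2
        have hp : p = v0 := by
          by_contra hne
          exact h p hne p2 p1
        have hq : q = v0 := by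
          by_contra hne
          exact h q hne q2 q1
        exact hpq (hp.trans hq.symm)
    rw [h1, h2, card_singleton, card_empty]

theorem NVQ_vert (hDEG : DEG_stmt) {V F : Type} [Fintype V] [Fintype F] (M : PMap V F) (x : V) (B : F)
    (hx : ¬ OnV M.toCyc B x) (v : V) (hv : v ∈ shV M x B) :
    ((NN M x B).filter (fun A => OnV M.toCyc A v)).card = 1 + if Adj M.toCyc x v then 1 else 0 := by
  obtain ⟨hBv, A0, hA0x, hA0v⟩ := (mem_filter.1 hv).2
  have hne : v ≠ x := by
    rintro rfl
    exact hx hBv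
  have h1 : (NN M x B).filter (fun A => OnV M.toCyc A v) = univ.filter (fun A => OnV M.toCyc A x ∧ OnV M.toCyc A v) := by
    ext A
    simp only [mem_filter, NN, mem_univ, true_and]
    constructor
    · rintro ⟨⟨h, -⟩, h'⟩
      exact ⟨h, h'⟩
    · rintro ⟨h, h'⟩
      exact ⟨⟨h, v, h', hBv⟩, h'⟩
  rw [h1]
  obtain ⟨d1, d2, -⟩ := hDEG V F M x
  split_ifs with had
  · rw [d2 v had]
  · have h2 : univ.filter (fun A => OnV M.toCyc A x ∧ OnV M.toCyc A v) = {A0} := by
      ext A
      simp only [mem_filter, mem_singleton, mem_univ, true_and]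
      constructor
      · rintro ⟨h, h'⟩
        exact d1 v A A0 hne had h h' hA0x hA0v
      · rintro rfl
        exact ⟨hA0x, hA0v⟩
    rw [h2, card_singleton]

theorem NVQ_edge (hEDG : EDG_stmt) {V F : Type} [Fintype V] [Fintype F] (M : PMap V F) (x : V) (B : F)
    (hx : ¬ OnV M.toCyc B x) (e : Sym2 V) (he : e ∈ shE M x B) :
    ((NN M x B).filter (fun A => OnE M.toCyc A e)).card = 1 := by
  obtain ⟨hBe, A0, hA0x, hA0e⟩ := (mem_filter.1 he).2
  have h2 : (NN M x B).filter (fun A => OnE M.toCyc A e) = {A0} := by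
    ext A
    simp only [mem_filter, mem_singleton, NN, mem_univ, true_and]
    constructor
    · rintro ⟨⟨h, -⟩, h'⟩
      obtain ⟨g, -, -, hg⟩ := M.two e B hBe
      have hAg : A = g := by
        rcases hg A h' with h3 | h3
        · rw [h3] at h
          exact absurd h hx
        · exact h3
      have hA0g : A0 = g := by
        rcases hg A0 hA0e with h3 | h3
        · rw [h3] at hA0x
          exact absurd hA0x hx
        · exact h3
      rw [hAg, hA0g]
    · rintro rfl
      refine ⟨⟨hA0x, ?_⟩, hA0e⟩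
      induction e using Sym2.ind with
      | _ p q =>
        exact ⟨p, ((hEDG V F M).1 A p q hA0e).1, ((hEDG V F M).1 B p q hBe).1⟩
  rw [h2, card_singleton]

theorem NVQ (hEDG : EDG_stmt) (hDEG : DEG_stmt) : NVQ_stmt := by
  intro V F _ _ M x B hx
  have key1 : ∑ v ∈ shV M x B, ((NN M x B).filter (fun A => OnV M.toCyc A v)).card =
      ∑ A ∈ NN M x B, ((shV M x B).filter (fun v => OnV M.toCyc A v)).card :=
    sum_card_bipartiteAbove_eq_sum_card_bipartiteBelow (s := shV M x B) (t := NN M x B) (fun v A => OnV M.toCyc A v)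
  have key2 : ∑ e ∈ shE M x B, ((NN M x B).filter (fun A => OnE M.toCyc A e)).card =
      ∑ A ∈ NN M x B, ((shE M x B).filter (fun e => OnE M.toCyc A e)).card :=
    sum_card_bipartiteAbove_eq_sum_card_bipartiteBelow (s := shE M x B) (t := NN M x B) (fun e A => OnE M.toCyc A e)
  rw [sum_congr rfl (fun v hv => NVQ_vert hDEG M x B hx v hv), sum_add_distrib, sum_const, smul_eq_mul, mul_one,
    sum_congr rfl (fun A hA => NVQ_face hEDG M x B A hx hA), sum_add_distrib, sum_const, smul_eq_mul, mul_one, ← key2,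
    sum_congr rfl (fun e he => NVQ_edge hEDG M x B hx e he), sum_const, smul_eq_mul, mul_one] at key1
  have hQ : ∑ v ∈ shV M x B, (if Adj M.toCyc x v then 1 else 0) = (QQ M x B).card := by
    rw [← card_filter]
    congr 1
    ext s
    simp only [mem_filter, shV, QQ, mem_univ, true_and]
    constructor
    · rintro ⟨⟨h, -⟩, h'⟩
      exact ⟨h', h⟩
    · rintro ⟨h', h⟩
      obtain ⟨A, hA⟩ := h'
      have := (hEDG V F M).1 A x s hA
      exact ⟨⟨h, A, this.1, this.2.1⟩, ⟨A, hA⟩⟩
  rw [hQ] at key1
  exact key1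

end Pool.Agent.helper84.NR
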